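import Pool.Agent.T6.H14.TW.Mon
import Pool.Agent.R915.It.Main

/-!
# An explicit tower of every degree over the rational numbers
-/

set_option autoImplicit false
set_option linter.all false

open Polynomial
open scoped Classical

namespace Pool.Agent.T6.H14.TW

open Pool.Agent.TH115.GD Pool.Agent.R939.EI Pool.Agent.T6.H14.EV Pool.Agent.R915.It

/-- The monic polynomials `f` over `ℤ` of positive degree which are `X ^ deg f` modulo `3`, with
constant term divisible by `18` and odd coefficient of `X`, which have no divisor of degree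
`deg f / 2` modulo `2`. -/
def ExampleSet : Set ℚ[X] :=
  {h | ∃ f : ℤ[X], f.map (Int.castRingHom ℚ) = h ∧ f.Monic ∧ 0 < f.natDegree ∧
    (∀ i, i < f.natDegree → (3 : ℤ) ∣ f.coeff i) ∧ (18 : ℤ) ∣ f.coeff 0 ∧ ¬ (2 : ℤ) ∣ f.coeff 1 ∧
    ∀ q : (ZMod 2)[X], q ∣ f.map (Int.castRingHom (ZMod 2)) → 2 * q.natDegree ≠ f.natDegree}

instance hens2 : HenselianLocalRing ℤ_[2] where
  is_henselian := by
    intro f hf a₀ h1 h2
    exact HenselianRing.is_henselian (I := IsLocalRing.maximalIdeal ℤ_[2]) f hf a₀ h1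
      (h2.map (Ideal.Quotient.mk _))

theorem residue_int (n : ℤ) : IsLocalRing.residue ℤ_[2] ((n : ℤ) : ℤ_[2]) =
    (PadicInt.residueField (p := 2)).symm ((n : ℤ) : ZMod 2) := by
  rw [map_intCast, map_intCast]

theorem map_residue (f : ℤ[X]) :
    (f.map (Int.castRingHom ℤ_[2])).map (IsLocalRing.residue ℤ_[2]) =
      (f.map (Int.castRingHom (ZMod 2))).map
        ((PadicInt.residueField (p := 2)).symm : ZMod 2 →+* IsLocalRing.ResidueField ℤ_[2]) := by
  rw [Polynomial.map_map, Polynomial.map_map]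
  exact congrArg (fun r => f.map r) (RingHom.ext_int _ _)

theorem map_two (f : ℤ[X]) :
    (f.map (Int.castRingHom ℤ_[2])).map (algebraMap ℤ_[2] ℚ_[2]) =
      (f.map (Int.castRingHom ℚ)).map (algebraMap ℚ ℚ_[2]) := by
  rw [Polynomial.map_map, Polynomial.map_map]
  exact congrArg (fun r => f.map r) (RingHom.ext_int _ _)

theorem span3_prime : (Ideal.span {(3 : ℤ)}).IsPrime := by
  rw [Ideal.span_singleton_prime (by norm_num)]
  exact Int.prime_three

theorem example_ram {h : ℚ[X]} (hh : h ∈ ExampleSet) :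
    0 < h.natDegree ∧ TotallyRamifiedAt (Ideal.span {(3 : ℤ)}) h := by
  obtain ⟨f, rfl, hm, hd, h3, h18, h1, hq⟩ := hh
  have hnd : (f.map (Int.castRingHom ℚ)).natDegree = f.natDegree := hm.natDegree_map _
  refine ⟨by rw [hnd]; exact hd, f, rfl, by rw [hm.leadingCoeff]; exact isUnit_one, ?_, ?_⟩
  · intro i hi
    exact Ideal.mem_span_singleton.2 (h3 i hi)
  · rw [Ideal.span_singleton_pow, Ideal.mem_span_singleton]
    exact (show (3 : ℤ) ^ 2 ∣ 18 by norm_num).trans h18

theorem example_unb {h : ℚ[X]} (hh : h ∈ ExampleSet) :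
    UnbalancedAt (O := ℤ_[2]) (algebraMap ℚ ℚ_[2]) ({0} : Set (IsLocalRing.ResidueField ℤ_[2])) h := by
  obtain ⟨f, rfl, hm, hd, h3, h18, h1, hq⟩ := hh
  refine ⟨f.map (Int.castRingHom ℤ_[2]), map_two f, ?_, ?_⟩
  · rw [(hm.map _).leadingCoeff]
    exact isUnit_one
  · rintro x rfl
    have hco : ∀ g : ℤ[X], ((g.map (Int.castRingHom ℤ_[2])).map (IsLocalRing.residue ℤ_[2])).eval 0 =
        ((PadicInt.residueField (p := 2)).symm ((g.coeff 0 : ℤ) : ZMod 2)) := by
      intro g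
      have h0 : (0 : IsLocalRing.ResidueField ℤ_[2]) = ((PadicInt.residueField (p := 2)).symm :
          ZMod 2 →+* IsLocalRing.ResidueField ℤ_[2]) (Int.castRingHom (ZMod 2) 0) := by simp
      rw [map_residue, h0, eval_map, eval₂_at_apply, eval_map, eval₂_at_apply,
        ← coeff_zero_eq_eval_zero]
      rfl
    refine ⟨⟨0, rfl, ?_, ?_⟩, ?_⟩
    · rw [hco]
      have h2 : ((f.coeff 0 : ℤ) : ZMod 2) = 0 := by
        rw [ZMod.intCast_zmod_eq_zero_iff_dvd]
        exact (show (2 : ℤ) ∣ 18 by norm_num).trans h18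
      rw [h2, map_zero]
    · rw [derivative_map, derivative_map, hco, coeff_derivative]
      intro h2
      rw [map_eq_zero_iff _ (PadicInt.residueField (p := 2)).symm.injective] at h2
      apply h1
      have h5 : (((f.coeff 1 : ℤ)) : ZMod 2) = 0 := by simpa using h2
      exact (ZMod.intCast_zmod_eq_zero_iff_dvd (f.coeff 1) 2).1 h5
    · intro q hqd he
      rw [C_0, sub_zero, map_residue] at hqd
      rw [(hm.map _).natDegree_map, hm.natDegree_map] at he
      refine hq (q.map ((PadicInt.residueField (p := 2)) :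
        IsLocalRing.ResidueField ℤ_[2] →+* ZMod 2)) ?_ ?_
      · have h2 := Polynomial.map_dvd ((PadicInt.residueField (p := 2)) :
          IsLocalRing.ResidueField ℤ_[2] →+* ZMod 2) hqd
        rw [Polynomial.map_map (f := ((PadicInt.residueField (p := 2)).symm :
          ZMod 2 →+* IsLocalRing.ResidueField ℤ_[2]))] at h2
        have e1 : (((PadicInt.residueField (p := 2)) : IsLocalRing.ResidueField ℤ_[2] →+* ZMod 2).comp
            ((PadicInt.residueField (p := 2)).symm : ZMod 2 →+* IsLocalRing.ResidueField ℤ_[2])) =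
            RingHom.id (ZMod 2) := by
          ext z
          exact (PadicInt.residueField (p := 2)).apply_symm_apply z
        rw [e1, Polynomial.map_id] at h2
        exact h2
      · rw [natDegree_map]
        exact he

/-- a root in `2 ℤ₂` -/
theorem root_two {f : ℤ[X]} (hm : f.Monic) (h0 : (2 : ℤ) ∣ f.eval 0)
    (h1 : ¬ (2 : ℤ) ∣ f.derivative.eval 0) :
    HasRootIn (O := ℤ_[2]) (algebraMap ℚ ℚ_[2]) ({0} : Set (IsLocalRing.ResidueField ℤ_[2]))
      (f.map (Int.castRingHom ℚ)) := by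
  have hev : ∀ g : ℤ[X], (g.map (Int.castRingHom ℤ_[2])).eval 0 = ((g.eval 0 : ℤ) : ℤ_[2]) := by
    intro g
    have e : (0 : ℤ_[2]) = Int.castRingHom ℤ_[2] 0 := by simp
    rw [e, eval_map, eval₂_at_apply]
    rfl
  have hunit : ∀ n : ℤ, ¬ (2 : ℤ) ∣ n → IsUnit ((n : ℤ) : ℤ_[2]) := by
    intro n hn
    rw [PadicInt.isUnit_iff]
    have h6 : ¬ ‖((n : ℤ) : ℤ_[2])‖ < 1 := by
      rw [PadicInt.norm_int_lt_one_iff_dvd]
      exact hn
    exact le_antisymm (PadicInt.norm_le_one _) (not_lt.1 h6)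
  obtain ⟨x, hx, hx0⟩ := HenselianLocalRing.is_henselian (f.map (Int.castRingHom ℤ_[2]))
    (hm.map _) 0 (by
      rw [hev, IsLocalRing.mem_maximalIdeal, mem_nonunits_iff, PadicInt.isUnit_iff]
      intro h2
      have h3 := (PadicInt.norm_int_lt_one_iff_dvd (p := 2) (f.eval 0)).2 h0
      rw [h2] at h3
      exact lt_irrefl _ h3) (by
      rw [derivative_map, hev]
      exact hunit _ h1)
  refine ⟨x, ?_, ?_⟩
  · rw [← map_two, eval_map, eval₂_at_apply, hx.eq_zero, map_zero]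
  · rw [sub_zero] at hx0
    exact IsLocalRing.residue_eq_zero_iff _ |>.2 hx0

theorem HasRootIn.of_const {k O E : Type} [Field k] [CommRing O] [IsDomain O]
    [HenselianLocalRing O] [IsIntegrallyClosed O] [Field E] [Algebra O E] [IsFractionRing O E]
    {φ : k →+* E} {Z : Set (IsLocalRing.ResidueField O)} {f g : k[X]} {c : k} (hc : c ≠ 0)
    (h : HasRootIn (O := O) φ Z f) (hfg : f = C c * g) : HasRootIn (O := O) φ Z g := by
  obtain ⟨x, hx, hxZ⟩ := h
  refine ⟨x, ?_, hxZ⟩
  rw [hfg, Polynomial.map_mul, map_C, eval_mul, eval_C] at hx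
  exact (mul_eq_zero.1 hx).resolve_left ((_root_.map_ne_zero _).2 hc)

/-- the polynomials `X ^ 3 + 3 X + c` -/
noncomputable def fc (c : ℤ) : ℤ[X] := X ^ 3 + C 3 * X + C c

theorem fc_monic (c : ℤ) : (fc c).Monic := by
  unfold fc
  monicity!

theorem fc_natDegree (c : ℤ) : (fc c).natDegree = 3 := by
  unfold fc
  compute_degree!

theorem fc_coeff (c : ℤ) : (fc c).coeff 0 = c ∧ (fc c).coeff 1 = 3 ∧ (fc c).coeff 2 = 0 := by
  unfold fc
  refine ⟨?_, ?_, ?_⟩ <;> rw [coeff_add, coeff_add, coeff_X_pow, coeff_C_mul, coeff_X, coeff_C] <;>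
    norm_num

theorem fc_eis {c : ℤ} (h3 : (3 : ℤ) ∣ c) (h9 : ¬ (9 : ℤ) ∣ c) :
    EisensteinUpTo (k := ℚ) (Ideal.span {(3 : ℤ)}) ((fc c).map (Int.castRingHom ℚ)) := by
  obtain ⟨c0, c1, c2⟩ := fc_coeff c
  refine ⟨1, fc c, one_ne_zero, by rw [C_1, one_mul]; rfl, ?_, ?_, ?_, ?_⟩
  · rw [(fc_monic c).leadingCoeff]
    exact isUnit_one
  · rw [fc_natDegree]
    norm_num
  · intro i hi
    rw [fc_natDegree] at hi
    rw [Ideal.mem_span_singleton]
    interval_cases i
    · rw [c0]; exact h3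
    · rw [c1]
    · rw [c2]; exact dvd_zero _
  · rw [Ideal.span_singleton_pow, Ideal.mem_span_singleton, c0]
    exact h9

theorem fc_root {c : ℤ} (h2 : (2 : ℤ) ∣ c) :
    HasRootIn (O := ℤ_[2]) (algebraMap ℚ ℚ_[2]) ({0} : Set (IsLocalRing.ResidueField ℤ_[2]))
      ((fc c).map (Int.castRingHom ℚ)) := by
  refine root_two (fc_monic c) ?_ ?_
  · unfold fc
    simpa using h2
  · unfold fc
    simp

theorem fc_irr {c : ℤ} (h3 : (3 : ℤ) ∣ c) (h9 : ¬ (9 : ℤ) ∣ c) :
    Irreducible ((fc c).map (Int.castRingHom ℚ)) := by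
  haveI := span3_prime
  exact (fc_eis h3 h9).irreducible

theorem fcQ (c : ℤ) : (fc c).map (Int.castRingHom ℚ) = X ^ 3 + C 3 * X + C (c : ℚ) := by
  unfold fc
  simp
  exact (map_ofNat C 3).symm

theorem disc12 : (C 12 : ℚ[X]) ^ 2 - 4 * (fc 6).map (Int.castRingHom ℚ) =
    C (-4) * (fc (-30)).map (Int.castRingHom ℚ) := by
  rw [fcQ, fcQ]
  have e4 : (4 : ℚ[X]) = C 4 := by rw [map_ofNat]
  rw [e4, ← C_pow, mul_add, mul_add, ← C_mul]
  have e1 : C (-4 : ℚ) * (X ^ 3 + C 3 * X + C (((-30 : ℤ)) : ℚ)) =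
      -(C 4 * (X ^ 3 + C 3 * X)) + C (120 : ℚ) := by
    rw [mul_add, ← C_mul, C_neg]
    push_cast
    norm_num
  rw [e1, ← mul_add]
  have e2 : C ((12 : ℚ) ^ 2) = C (4 * (((6 : ℤ)) : ℚ)) + C (120 : ℚ) := by
    rw [← C_add]
    congr 1
    norm_num
  rw [e2]
  ring

theorem example_tower {k' K F : Type} [Field k'] [Algebra ℚ k'] [Field K] [Algebra ℚ[X] K]
    [Field F] [Algebra k'[X] F] [IsFractionRing k'[X] F] [Algebra K F] (hT : IsTower ℚ k' K F)
    {h : ℚ[X]} (hh : IsCompositeOf ExampleSet h) {e : ℚ} (he : e ≠ 0) :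
    TateAtTwo (F := F) k' (crvT (algebraMap ℚ[X] K (C (12 * e)))
      (algebraMap ℚ[X] K (C (e ^ 2) * (h ^ 3 + 3 * h + 6)))) := by
  haveI := span3_prime
  have i6 : Irreducible ((fc 6).map (Int.castRingHom ℚ)) := fc_irr (by norm_num) (by norm_num)
  have i30 : Irreducible ((fc (-30)).map (Int.castRingHom ℚ)) :=
    fc_irr (by norm_num) (by norm_num)
  have hm4 : (-4 : ℚ) ≠ 0 := by norm_num
  have idc : Irreducible ((C 12 : ℚ[X]) ^ 2 - 4 * (fc 6).map (Int.castRingHom ℚ)) := by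
    rw [disc12]
    exact (irreducible_isUnit_mul (isUnit_C.2 (isUnit_iff_ne_zero.2 hm4))).2 i30
  have n6 : ((fc 6).map (Int.castRingHom ℚ)).natDegree = 3 := by
    rw [(fc_monic 6).natDegree_map, fc_natDegree]
  have n30 : ((fc (-30)).map (Int.castRingHom ℚ)).natDegree = 3 := by
    rw [(fc_monic (-30)).natDegree_map, fc_natDegree]
  have key : ∀ {g : ℚ[X]} {c : ℤ}, Irreducible g → (3 : ℤ) ∣ c → ¬ (9 : ℤ) ∣ c → (2 : ℤ) ∣ c →
      g ∣ (fc c).map (Int.castRingHom ℚ) →
      StableFor ExampleSet g ∧ LocallyUnbalanced ExampleSet g := by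
    intro g c hg h3 h9 h2 hd
    obtain ⟨w, hw⟩ := hg.associated_of_dvd (fc_irr h3 h9) hd
    obtain ⟨r, hr, hrw⟩ := isUnit_iff.1 w.isUnit
    have e1 : (fc c).map (Int.castRingHom ℚ) = C r * g := by
      rw [← hw, ← hrw, mul_comm]
    refine ⟨stable_of_eisenstein (A := ℤ) (P := Ideal.span {(3 : ℤ)}) (fun g hg => example_ram hg)
      (EisensteinUpTo.const hr.ne_zero (by rw [← e1]; exact fc_eis h3 h9)),
      ℤ_[2], ℚ_[2], inferInstance, inferInstance, inferInstance, inferInstance, inferInstance,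
      inferInstance, inferInstance, algebraMap ℚ ℚ_[2], {0},
      HasRootIn.of_const hr.ne_zero (fc_root h2) e1, fun g hg => example_unb hg⟩
  have hf : ∀ f : ℚ[X], Irreducible f →
      f ∣ (fc 6).map (Int.castRingHom ℚ) * ((C 12 : ℚ[X]) ^ 2 - 4 * (fc 6).map (Int.castRingHom ℚ)) →
      StableFor ExampleSet f ∧ LocallyUnbalanced ExampleSet f := by
    intro f hfi hfd
    rcases hfi.prime.dvd_or_dvd hfd with h1 | h1
    · exact key hfi (by norm_num) (by norm_num) (by norm_num) h1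
    · rw [disc12] at h1
      have h2 := (isUnit_C.2 (isUnit_iff_ne_zero.2 hm4) : IsUnit (C (-4 : ℚ))).dvd_mul_left.1 h1
      exact key hfi (by norm_num) (by norm_num) (by norm_num) h2
  have hcrit : CritTriv (C 12 : ℚ[X]) ((fc 6).map (Int.castRingHom ℚ)) := by
    refine ⟨notNorm_irr_odd i6 (by rw [n6]; decide), notNorm_irr_odd idc ?_, onlyTrivial_irr i6,
      onlyTrivial_irr idc⟩
    rw [disc12, natDegree_C_mul hm4, n30]
    decide
  have h1 := ((tame_composite (F := F) hT (fun g hg => (example_ram hg).1) hf hh).2 hcrit).2 1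
    ⟨one_ne_zero, fun π hπ hdv => absurd (isUnit_of_dvd_one hdv) hπ.not_isUnit⟩ e he
  have e1 : (C e * ((C 12 : ℚ[X]).comp h * 1)) = C (12 * e) := by
    rw [mul_one, C_comp, ← C_mul, mul_comm]
  have e2 : C (e ^ 2) * (((fc 6).map (Int.castRingHom ℚ)).comp h * 1 ^ 2) =
      C (e ^ 2) * (h ^ 3 + 3 * h + 6) := by
    have e3 : (C 3 : ℚ[X]) = 3 := map_ofNat C 3
    have e6 : (C (((6 : ℤ)) : ℚ) : ℚ[X]) = 6 := by
      push_cast
      exact map_ofNat C 6
    rw [fcQ, one_pow, mul_one, add_comp, add_comp, pow_comp, mul_comp, X_comp, C_comp, C_comp, e3,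
      e6]
  rw [e1, e2] at h1
  exact h1

/-- a polynomial of degree four in the set -/
theorem quartic_mem : (X ^ 4 + 3 * X ^ 2 + 3 * X : ℚ[X]) ∈ ExampleSet := by
  set f : ℤ[X] := X ^ 4 + C 3 * X ^ 2 + C 3 * X with hf
  have hm : f.Monic := by
    rw [hf]
    monicity!
  have hnd : f.natDegree = 4 := by
    rw [hf]
    compute_degree!
  have hco : ∀ i, f.coeff i = (if i = 4 then 1 else 0) + 3 * (if i = 2 then 1 else 0) +
      3 * (if i = 1 then 1 else 0) := by
    intro i
    rw [hf, coeff_add, coeff_add, coeff_X_pow, coeff_C_mul, coeff_C_mul, coeff_X_pow, coeff_X]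
    congr 2
    simp only [eq_comm]
  refine ⟨f, ?_, hm, by rw [hnd]; norm_num, ?_, ?_, ?_, ?_⟩
  · rw [hf]
    have e3 : (C (3 : ℚ) : ℚ[X]) = 3 := map_ofNat C 3
    simp only [Polynomial.map_add, Polynomial.map_mul, Polynomial.map_pow, map_X, map_C]
    rw [show Int.castRingHom ℚ 3 = 3 by simp, e3]
  · intro i hi
    rw [hnd] at hi
    rw [hco, if_neg (by omega), zero_add, ← mul_add]
    exact dvd_mul_right _ _
  · rw [hco]
    norm_num
  · rw [hco]
    norm_num
  · intro q hq hdeg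
    rw [hnd] at hdeg
    have hq2 : q.natDegree = 2 := by omega
    have e1 : f.map (Int.castRingHom (ZMod 2)) = X * (X ^ 3 + X + 1) := by
      rw [hf]
      simp only [Polynomial.map_add, Polynomial.map_mul, Polynomial.map_pow, map_X, map_C]
      have e3 : (Int.castRingHom (ZMod 2)) 3 = 1 := by decide
      rw [e3, C_1]
      ring
    rw [e1] at hq
    have hc3 : (X ^ 3 + X + 1 : (ZMod 2)[X]).natDegree = 3 := by
      compute_degree!
    have hirr : Irreducible (X ^ 3 + X + 1 : (ZMod 2)[X]) := by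
      refine irreducible_of_degree_le_three_of_not_isRoot (by rw [hc3]; decide) ?_
      intro x
      rw [IsRoot.def, eval_add, eval_add, eval_pow, eval_X, eval_one]
      revert x
      decide
    have hq0 : q ≠ 0 := by
      rintro rfl
      rw [natDegree_zero] at hq2
      omega
    have hcop : IsCoprime (X ^ 3 + X + 1 : (ZMod 2)[X]) q := by
      refine hirr.coprime_iff_not_dvd.2 ?_
      intro h0
      have h1 := natDegree_le_of_dvd h0 hq0
      rw [hc3, hq2] at h1
      omega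
    have h2 : q ∣ X := hcop.symm.dvd_of_dvd_mul_right hq
    have h3 := natDegree_le_of_dvd h2 X_ne_zero
    rw [natDegree_X, hq2] at h3
    omega

end Pool.Agent.T6.H14.TW
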