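import Pool.Agent.T6.H14.TW.Step

/-!
# All composites of the elements of a set of polynomials
-/

set_option autoImplicit false
set_option linter.all false

open Polynomial
open scoped Classical

namespace Pool.Agent.T6.H14.TW

open Pool.Agent.TH115.GD Pool.Agent.R939.EI Pool.Agent.T6.H14.EV

/-- The composites `g₁ ∘ g₂ ∘ ⋯ ∘ gₙ`, `n ≥ 0`, of elements of `S`. -/
inductive IsCompositeOf {k : Type} [Field k] (S : Set k[X]) : k[X] → Prop
  | one : IsCompositeOf S X
  | step {h g : k[X]} : IsCompositeOf S h → g ∈ S → IsCompositeOf S (h.comp g)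

/-- `f` is stable for `S`: the polynomials `f(h)` are irreducible for all the composites `h` of elements
of `S`. -/
def StableFor {k : Type} [Field k] (S : Set k[X]) (f : k[X]) : Prop :=
  ∀ h : k[X], IsCompositeOf S h → Irreducible (f.comp h)

/-- There is a place of `k` (an embedding `φ` of `k` in the fraction field `E` of a Henselian integrally
closed local domain `O`) and a set `Z` of residue classes such that `f` has a root in `O` whose residue
class is in `Z`, and `UnbalancedAt` holds for all the elements of `S`. -/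
def LocallyUnbalanced {k : Type} [Field k] (S : Set k[X]) (f : k[X]) : Prop :=
  ∃ (O E : Type) (_ : CommRing O) (_ : IsDomain O) (_ : HenselianLocalRing O)
    (_ : IsIntegrallyClosed O) (_ : Field E) (_ : Algebra O E) (_ : IsFractionRing O E)
    (φ : k →+* E) (Z : Set (IsLocalRing.ResidueField O)),
    HasRootIn (O := O) φ Z f ∧ ∀ g ∈ S, UnbalancedAt (O := O) φ Z g

section

variable {k : Type} [Field k]

theorem good_of_associated {p q h : k[X]} (ha : Associated p q) (hp : Irreducible (p.comp h))
    (hN : NoQ p h) : Irreducible (q.comp h) ∧ NoQ q h := by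
  obtain ⟨w, hw⟩ := id ha
  obtain ⟨e, he, hew⟩ := isUnit_iff.1 w.isUnit
  have hc : q.comp h = p.comp h * C e := by
    rw [← hw, ← hew, mul_comp, C_comp]
  have hass : Associated (p.comp h) (q.comp h) := by
    rw [hc]
    exact associated_mul_unit_right _ _ (isUnit_C.2 he)
  refine ⟨hass.irreducible hp, ?_⟩
  intro g r hgr
  obtain ⟨s, hs⟩ := hN g r (hass.dvd.trans hgr)
  exact ⟨s, ha.symm.dvd.trans hs⟩

theorem composite_pos {S : Set k[X]} (hS : ∀ g ∈ S, 0 < g.natDegree) {h : k[X]}
    (hh : IsCompositeOf S h) : 0 < h.natDegree := by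
  induction hh with
  | one => rw [natDegree_X]; exact one_pos
  | @step h g hh hg ih =>
    rw [natDegree_comp]
    exact Nat.mul_pos ih (hS g hg)

theorem root_composite {S : Set k[X]} (hS : ∀ g ∈ S, 0 < g.natDegree) {O E : Type} [CommRing O]
    [IsDomain O] [HenselianLocalRing O] [IsIntegrallyClosed O] [Field E] [Algebra O E]
    [IsFractionRing O E] {φ : k →+* E} {Z : Set (IsLocalRing.ResidueField O)} {f : k[X]}
    (hf : HasRootIn (O := O) φ Z f) (hU : ∀ g ∈ S, UnbalancedAt (O := O) φ Z g) {h : k[X]}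
    (hh : IsCompositeOf S h) : HasRootIn (O := O) φ Z (f.comp h) := by
  induction hh with
  | one => rwa [comp_X]
  | @step h g hh hg ih =>
    rw [← comp_assoc]
    exact ih.comp (hU g hg) (hS g hg)

/-- one more layer is good -/
theorem good_step {S : Set k[X]} (hS : ∀ g ∈ S, 0 < g.natDegree) {G h g : k[X]} (hG : G ≠ 0)
    (hf : ∀ f : k[X], Irreducible f → f ∣ G → StableFor S f ∧ LocallyUnbalanced S f)
    (hh : IsCompositeOf S h) (hg : g ∈ S) : Good (G.comp h) g := by
  intro q hq hqd
  obtain ⟨f, hfi, hfG, hqf⟩ := Inert.exists_prime hG hq hqd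
  obtain ⟨hst, O, E, _, _, _, _, _, _, _, φ, Z, hr, hU⟩ := hf f hfi hfG
  have hi : Irreducible (f.comp h) := hst h hh
  have hass : Associated (f.comp h) q := (hq.associated_of_dvd hi hqf).symm
  have hi2 : Irreducible ((f.comp h).comp g) := by
    rw [comp_assoc]
    exact hst _ (hh.step hg)
  exact good_of_associated hass hi2
    (noQ_of_local hi hi2 (hS g hg) (root_composite hS hr hU hh) (hU g hg))

theorem good_X (f : k[X]) : Good f X := by
  intro π hπ _
  rw [comp_X]
  refine ⟨hπ, ?_⟩
  intro g r hgr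
  rw [comp_X, comp_X] at hgr
  exact ⟨r, hgr⟩

/-- Eisenstein's criterion gives stable polynomials. -/
theorem stable_of_eisenstein {A : Type} [CommRing A] [IsDomain A] [IsIntegrallyClosed A]
    [Algebra A k] [IsFractionRing A k] {P : Ideal A} [hP : P.IsPrime] {S : Set k[X]}
    (hS : ∀ g ∈ S, 0 < g.natDegree ∧ TotallyRamifiedAt P g) {f : k[X]}
    (hf : EisensteinUpTo P f) : StableFor S f := by
  have key : ∀ h : k[X], IsCompositeOf S h → EisensteinUpTo P (f.comp h) := by
    intro h hh
    induction hh with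
    | one => rwa [comp_X]
    | @step h g hh hg ih =>
      rw [← comp_assoc]
      exact ih.comp (hS g hg).2 (hS g hg).1
  exact fun h hh => (key h hh).irreducible

end

section

variable {k : Type} [Field k] [CharZero k] {k' K F : Type} [Field k'] [Algebra k k'] [Field K]
    [Algebra k[X] K] [Field F] [Algebra k'[X] F] [IsFractionRing k'[X] F] [Algebra K F]

theorem ne_of_notNorm {p : k[X]} (hp : NotNorm p) : p ≠ 0 := by
  rintro rfl
  exact (hp 0 0 0 0 (by simp)).1 rfl

/-- **All composites.** -/
theorem tame_composite (hT : IsTower k k' K F) {S : Set k[X]} (hS : ∀ g ∈ S, 0 < g.natDegree)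
    {a b : k[X]} (hf : ∀ f : k[X], Irreducible f → f ∣ b * (a ^ 2 - 4 * b) →
      StableFor S f ∧ LocallyUnbalanced S f) {h : k[X]} (hh : IsCompositeOf S h) :
    Tame k' K F a b h := by
  by_cases hG : b * (a ^ 2 - 4 * b) = 0
  · -- nothing to prove
    have hno : ¬ (NotNorm b ∧ NotNorm (a ^ 2 - 4 * b)) := by
      rintro ⟨h1, h2⟩
      exact mul_ne_zero (ne_of_notNorm h1) (ne_of_notNorm h2) hG
    exact ⟨fun h1 => absurd ⟨h1.1, h1.2.1⟩ hno, fun h1 => absurd ⟨h1.1, h1.2.1⟩ hno⟩
  induction hh with
  | one => exact tame_of_good hT (by rw [natDegree_X]; exact one_pos) (good_X _)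
  | @step h g hh hg ih =>
    have hgood := good_step hS hG hf hh hg
    have e : (b * (a ^ 2 - 4 * b)).comp h = b.comp h * ((a.comp h) ^ 2 - 4 * b.comp h) := by
      rw [comp_disc, mul_comp]
    rw [e] at hgood
    obtain ⟨t1, t2⟩ := tame_of_good hT (hS g hg) hgood
    rw [comp_assoc, comp_assoc] at t1 t2
    exact ⟨fun h1 => t1 (ih.1 h1).1, fun h1 => t2 (ih.2 h1).1⟩

end

end Pool.Agent.T6.H14.TW
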