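import Pool.Agent.T6.H14.TW.Emb
import Pool.Agent.T6.H14.EV.Main

/-!
# Polynomials with conditions at two places
-/

set_option autoImplicit false
set_option linter.all false

open Polynomial
open scoped Classical

namespace Pool.Agent.T6.H14.TW

open Pool.Agent.TH115.GD Pool.Agent.R939.EI Pool.Agent.T6.H14.EV

section eis

variable {k : Type} [Field k] {A : Type} [CommRing A] [IsDomain A] [IsIntegrallyClosed A]
  [Algebra A k] [IsFractionRing A k] (P : Ideal A)

/-- Up to a constant `f` is an Eisenstein polynomial at `P` with coefficients in `A`, with leading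
coefficient a unit of `A`. -/
def EisensteinUpTo (f : k[X]) : Prop :=
  ∃ (c : k) (g : A[X]), c ≠ 0 ∧ g.map (algebraMap A k) = C c * f ∧ IsUnit g.leadingCoeff ∧
    0 < g.natDegree ∧ (∀ i, i < g.natDegree → g.coeff i ∈ P) ∧ g.coeff 0 ∉ P ^ 2

/-- `h` has coefficients in `A`, the leading coefficient is a unit of `A`, the other coefficients are
in `P` and the constant term is in `P ^ 2`. -/
def TotallyRamifiedAt (h : k[X]) : Prop :=
  ∃ g : A[X], g.map (algebraMap A k) = h ∧ IsUnit g.leadingCoeff ∧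
    (∀ i, i < g.natDegree → g.coeff i ∈ P) ∧ g.coeff 0 ∈ P ^ 2

variable {P}

omit [IsDomain A] [IsIntegrallyClosed A] in
theorem mapQ {g : A[X]} (h : ∀ i, i < g.natDegree → g.coeff i ∈ P) :
    g.map (Ideal.Quotient.mk P) = C (Ideal.Quotient.mk P g.leadingCoeff) * X ^ g.natDegree := by
  ext i
  rw [coeff_map, coeff_C_mul, coeff_X_pow]
  rcases lt_trichotomy i g.natDegree with h1 | h1 | h1
  · rw [if_neg (by omega), mul_zero]
    exact Ideal.Quotient.eq_zero_iff_mem.2 (h i h1)
  · rw [if_pos h1, mul_one, h1]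
    rfl
  · rw [if_neg (by omega), mul_zero, coeff_eq_zero_of_natDegree_lt h1, map_zero]

theorem EisensteinUpTo.irreducible [hP : P.IsPrime] {f : k[X]} (h : EisensteinUpTo P f) :
    Irreducible f := by
  obtain ⟨c, g, hc, hg, hu, hd, hco, h0⟩ := h
  have hE : g.IsEisensteinAt P := by
    refine ⟨?_, fun {n} hn => ?_, h0⟩
    · intro h1
      exact hP.ne_top (Ideal.eq_top_of_isUnit_mem _ h1 hu)
    · exact hco n hn
  obtain ⟨u, hu'⟩ := hu
  have hprim : g.IsPrimitive := by
    intro r hr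
    rw [C_dvd_iff_dvd_coeff] at hr
    exact isUnit_of_dvd_unit (hr g.natDegree) ⟨u, hu'⟩
  have h1 : Irreducible g := hE.irreducible hP hprim hd
  have hCu : IsUnit (C (↑u⁻¹ : A) : A[X]) := isUnit_C.2 (Units.isUnit _)
  have h2 : Irreducible (C (↑u⁻¹ : A) * g) := (irreducible_isUnit_mul hCu).2 h1
  have hm : (C (↑u⁻¹ : A) * g).Monic := by
    rw [Monic, leadingCoeff_mul, leadingCoeff_C, ← hu', Units.inv_mul]
  have h3 := (hm.irreducible_iff_irreducible_map_fraction_map (K := k)).1 h2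
  rw [Polynomial.map_mul, map_C, hg, ← mul_assoc, ← C_mul] at h3
  have h4 : algebraMap A k (↑u⁻¹ : A) * c ≠ 0 := by
    refine mul_ne_zero ?_ hc
    exact ((Units.isUnit u⁻¹).map (algebraMap A k)).ne_zero
  exact (irreducible_isUnit_mul (isUnit_C.2 (isUnit_iff_ne_zero.2 h4))).1 h3

theorem EisensteinUpTo.comp [hP : P.IsPrime] {f h : k[X]} (hf : EisensteinUpTo P f)
    (hh : TotallyRamifiedAt P h) (hd : 0 < h.natDegree) : EisensteinUpTo P (f.comp h) := by
  obtain ⟨c, g, hc, hg, hu, hgd, hco, h0⟩ := hf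
  obtain ⟨q, hq, hqu, hqc, hq0⟩ := hh
  have hinj : Function.Injective (algebraMap A k) := IsFractionRing.injective A k
  have hqd : 0 < q.natDegree := by
    rwa [← hq, natDegree_map_eq_of_injective hinj] at hd
  have hlead : (g.comp q).leadingCoeff = g.leadingCoeff * q.leadingCoeff ^ g.natDegree :=
    leadingCoeff_comp hqd.ne'
  have hcu : IsUnit (g.comp q).leadingCoeff := by
    rw [hlead]
    exact hu.mul (hqu.pow _)
  refine ⟨c, g.comp q, hc, ?_, hcu, ?_, ?_, ?_⟩
  · rw [Polynomial.map_comp, hg, hq, mul_comp, C_comp]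
  · rw [natDegree_comp]
    exact Nat.mul_pos hgd hqd
  · intro i hi
    have h1 : (g.comp q).map (Ideal.Quotient.mk P) =
        C (Ideal.Quotient.mk P g.leadingCoeff * Ideal.Quotient.mk P q.leadingCoeff ^ g.natDegree) *
          X ^ (q.natDegree * g.natDegree) := by
      rw [Polynomial.map_comp, mapQ hco, mapQ hqc, mul_comp, C_comp, pow_comp, X_comp, mul_pow,
        ← C_pow, ← pow_mul, C_mul]
      ring
    have h2 := congrArg (fun p : (A ⧸ P)[X] => p.coeff i) h1
    simp only [coeff_map, coeff_C_mul, coeff_X_pow] at h2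
    rw [natDegree_comp] at hi
    rw [if_neg (by rw [mul_comm]; omega), mul_zero] at h2
    exact Ideal.Quotient.eq_zero_iff_mem.1 h2
  · intro h1
    apply h0
    rw [coeff_zero_eq_eval_zero, eval_comp] at h1
    rw [coeff_zero_eq_eval_zero] at hq0 ⊢
    have h2 : q.eval 0 - 0 ∣ g.eval (q.eval 0) - g.eval 0 := sub_dvd_eval_sub _ _ g
    rw [sub_zero] at h2
    have h3 : g.eval (q.eval 0) - g.eval 0 ∈ P ^ 2 := by
      obtain ⟨s, hs⟩ := h2
      rw [hs]
      exact Ideal.mul_mem_right _ _ hq0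
    have h4 := Ideal.sub_mem _ h1 h3
    rwa [sub_sub_cancel] at h4

omit [IsDomain A] [IsIntegrallyClosed A] [IsFractionRing A k] in
theorem EisensteinUpTo.const {f : k[X]} {c : k} (hc : c ≠ 0) (h : EisensteinUpTo P (C c * f)) :
    EisensteinUpTo P f := by
  obtain ⟨c', g, hc', hg, h1⟩ := h
  exact ⟨c' * c, g, mul_ne_zero hc' hc, by rw [hg, C_mul, mul_assoc], h1⟩

end eis

section root

variable {k : Type} [Field k] {O E : Type} [CommRing O] [IsDomain O] [HenselianLocalRing O]
  [IsIntegrallyClosed O] [Field E] [Algebra O E] [IsFractionRing O E] (φ : k →+* E)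
  (Z : Set (IsLocalRing.ResidueField O))

/-- `f` has, in the field `E`, a root in `O` whose residue class is in `Z`. -/
def HasRootIn (f : k[X]) : Prop :=
  ∃ x : O, (f.map φ).eval (algebraMap O E x) = 0 ∧ IsLocalRing.residue O x ∈ Z

/-- For the classes `x` in `Z` there is a class `y` in `Z` with `h(y) = x`, `h'(y) ≠ 0`, and the
polynomial `h - x` has no divisor of half its degree. -/
def Unbalanced {κ : Type} [Field κ] (Z : Set κ) (h : κ[X]) : Prop :=
  ∀ x ∈ Z, (∃ y ∈ Z, h.eval y = x ∧ h.derivative.eval y ≠ 0) ∧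
    ∀ q : κ[X], q ∣ h - C x → 2 * q.natDegree ≠ h.natDegree

/-- `h` has coefficients in `O`, with leading coefficient a unit, and its reduction modulo the maximal
ideal is `Unbalanced`. -/
def UnbalancedAt (h : k[X]) : Prop :=
  ∃ f : O[X], f.map (algebraMap O E) = h.map φ ∧ IsUnit f.leadingCoeff ∧
    Unbalanced Z (f.map (IsLocalRing.residue O))

variable {φ Z}

theorem HasRootIn.lift {f h : k[X]} {q : O[X]} (hq : q.map (algebraMap O E) = h.map φ)
    (hqu : IsUnit q.leadingCoeff) (hqd : 0 < q.natDegree) {x : O}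
    (hx : (f.map φ).eval (algebraMap O E x) = 0) {y : IsLocalRing.ResidueField O}
    (hy : (q.map (IsLocalRing.residue O)).eval y = IsLocalRing.residue O x)
    (hy' : (q.map (IsLocalRing.residue O)).derivative.eval y ≠ 0) :
    ∃ x1 : O, q.eval x1 = x ∧ IsLocalRing.residue O x1 = y ∧
      ((f.comp h).map φ).eval (algebraMap O E x1) = 0 := by
  obtain ⟨u, hu⟩ := hqu
  have hlead : (q - C x).leadingCoeff = u := by
    rw [hu, leadingCoeff_sub_of_degree_lt]
    exact lt_of_le_of_lt degree_C_le (natDegree_pos_iff_degree_pos.1 hqd)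
  have hm : (C (↑u⁻¹ : O) * (q - C x)).Monic := by
    rw [Monic, leadingCoeff_mul, leadingCoeff_C, hlead, Units.inv_mul]
  obtain ⟨a₀, ha₀⟩ := IsLocalRing.residue_surjective y
  have hev : ∀ p : O[X], IsLocalRing.residue O (p.eval a₀) =
      (p.map (IsLocalRing.residue O)).eval y := by
    intro p
    rw [← ha₀, eval_map, eval₂_at_apply]
  have h1 : (C (↑u⁻¹ : O) * (q - C x)).eval a₀ ∈ IsLocalRing.maximalIdeal O := by
    rw [← IsLocalRing.residue_eq_zero_iff, hev, Polynomial.map_mul, Polynomial.map_sub, map_C, map_C,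
      eval_mul, eval_sub, hy, eval_C, eval_C, sub_self, mul_zero]
  have h2 : IsUnit ((C (↑u⁻¹ : O) * (q - C x)).derivative.eval a₀) := by
    rw [← IsLocalRing.residue_ne_zero_iff_isUnit, hev, ← derivative_map, Polynomial.map_mul,
      Polynomial.map_sub, map_C, map_C]
    simp only [derivative_mul, derivative_C, derivative_sub, zero_mul, zero_add, sub_zero, eval_mul,
      eval_C]
    refine mul_ne_zero ?_ hy'
    rw [IsLocalRing.residue_ne_zero_iff_isUnit]
    exact Units.isUnit _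
  obtain ⟨x1, hx1, hx1a⟩ := HenselianLocalRing.is_henselian _ hm a₀ h1 h2
  have h3 : q.eval x1 = x := by
    rw [IsRoot.def, eval_mul, eval_C, eval_sub, eval_C] at hx1
    have h4 := (Units.isUnit u⁻¹).mul_right_eq_zero.1 hx1
    exact sub_eq_zero.1 h4
  refine ⟨x1, h3, ?_, ?_⟩
  · have h5 := IsLocalRing.residue_eq_zero_iff _ |>.2 hx1a
    rw [map_sub, sub_eq_zero] at h5
    rw [h5, ha₀]
  · rw [Polynomial.map_comp, eval_comp, ← hq, eval_map (algebraMap O E), eval₂_at_apply, h3]
    exact hx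

omit [HenselianLocalRing O] in
/-- A monic factor of a monic integral polynomial is integral. -/
theorem int_factor' {f : O[X]} (hf : f.Monic) {R : E[X]} (hR : R.Monic)
    (hd : R ∣ f.map (algebraMap O E)) : ∃ R₀ : O[X], R₀.Monic ∧ R₀.natDegree = R.natDegree ∧
      R₀.map (algebraMap O E) = R := by
  have h1 : ∀ i, ∃ y : O, algebraMap O E y = R.coeff i := fun i =>
    IsIntegrallyClosed.isIntegral_iff.1 (isIntegral_coeff_of_dvd f R hf hR hd i)
  have h2 : R ∈ Polynomial.lifts (algebraMap O E) := by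
    rw [Polynomial.lifts_iff_coeff_lifts]
    intro n
    obtain ⟨y, hy⟩ := h1 n
    exact ⟨y, hy⟩
  obtain ⟨R₀, h3, h4, h5⟩ := lifts_and_natDegree_eq_and_monic h2 hR
  exact ⟨R₀, h5, h4, h3⟩

/-- **No new square roots.** -/
theorem noQ_of_local {f h : k[X]} (hf : Irreducible f) (hi : Irreducible (f.comp h))
    (hd : 0 < h.natDegree) (hr : HasRootIn (O := O) φ Z f)
    (hh : UnbalancedAt (O := O) φ Z h) : NoQ f h := by
  by_contra hn
  haveI : Fact (Irreducible f) := ⟨hf⟩
  haveI : Fact (Irreducible (f.comp h)) := ⟨hi⟩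
  obtain ⟨q, hq, hqu, hqZ⟩ := hh
  obtain ⟨x, hx, hxZ⟩ := hr
  obtain ⟨⟨y, hyZ, hy, hy'⟩, hdeg⟩ := hqZ _ hxZ
  have hinj : Function.Injective (algebraMap O E) := IsFractionRing.injective O E
  have hqd' : q.natDegree = h.natDegree := by
    have h1 := congrArg natDegree hq
    rwa [natDegree_map_eq_of_injective hinj, natDegree_map] at h1
  obtain ⟨x1, hx1, hx1y, hx1r⟩ := HasRootIn.lift hq hqu (by rw [hqd']; exact hd) hx hy hy'
  obtain ⟨M, _, _, ι, hι, hιr, n, R, S, hn2, hR, hS, hRd, hSd, hRS⟩ :=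
    quad_factor_embed hi hd hn
  -- the embedding of `M` in `E`
  let φ1 : AdjoinRoot (f.comp h) →+* E := AdjoinRoot.lift φ (algebraMap O E x1) (by
    rw [← eval_map]
    exact hx1r)
  have hφ1k : ∀ z : k, φ1 (algebraMap k (AdjoinRoot (f.comp h)) z) = φ z := fun z =>
    AdjoinRoot.lift_of _
  have hφ1h : φ1 (AdjoinRoot.mk (f.comp h) h) = algebraMap O E x := by
    have e1 : φ1 (AdjoinRoot.mk (f.comp h) h) = h.eval₂ φ (algebraMap O E x1) :=
      AdjoinRoot.lift_mk _ h
    rw [e1, ← eval_map, ← hq, eval_map, eval₂_at_apply, hx1]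
  have hcomp : ((φ1.comp ι).comp ((algebraMap (AdjoinRoot f) M).comp
      (algebraMap k (AdjoinRoot f)))) = φ := by
    ext z
    simp only [RingHom.comp_apply]
    rw [hι, hφ1k]
  have h1 := congrArg (fun p : M[X] => p.map (φ1.comp ι)) hRS
  simp only [Polynomial.map_sub, Polynomial.map_mul, map_C, Polynomial.map_map] at h1
  rw [hcomp] at h1
  have e1 : (φ1.comp ι) (algebraMap (AdjoinRoot f) M (AdjoinRoot.root f)) = algebraMap O E x := by
    rw [RingHom.comp_apply, hιr, hφ1h]
  have e2 : (φ1.comp ι) (algebraMap (AdjoinRoot f) M (algebraMap k (AdjoinRoot f) h.leadingCoeff)) =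
      φ h.leadingCoeff := by
    rw [RingHom.comp_apply, hι, hφ1k]
  rw [e1, e2, ← hq] at h1
  set R' := R.map (φ1.comp ι) with hR'
  set S' := S.map (φ1.comp ι) with hS'
  have hR'm : R'.Monic := hR.map _
  have hS'm : S'.Monic := hS.map _
  obtain ⟨u, hu⟩ := hqu
  have hφl : φ h.leadingCoeff = algebraMap O E u := by
    rw [hu, ← leadingCoeff_map_of_injective hinj, hq, leadingCoeff_map]
  rw [hφl] at h1
  have hlead : (q - C x).leadingCoeff = u := by
    rw [hu, leadingCoeff_sub_of_degree_lt]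
    exact lt_of_le_of_lt degree_C_le (natDegree_pos_iff_degree_pos.1 (by rw [hqd']; exact hd))
  have hm : (C (↑u⁻¹ : O) * (q - C x)).Monic := by
    rw [Monic, leadingCoeff_mul, leadingCoeff_C, hlead, Units.inv_mul]
  have hfac : (C (↑u⁻¹ : O) * (q - C x)).map (algebraMap O E) = R' * S' := by
    have h2 : algebraMap O E (↑u⁻¹ : O) * algebraMap O E (u : O) = 1 := by
      rw [← map_mul, Units.inv_mul, map_one]
    rw [Polynomial.map_mul, map_C, Polynomial.map_sub, map_C, h1, ← mul_assoc, ← C_mul, h2, C_1,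
      one_mul]
  obtain ⟨R₀, hR₀, hR₀d, hR₀e⟩ := int_factor' (E := E) hm hR'm ⟨S', hfac⟩
  obtain ⟨S₀, hS₀, hS₀d, hS₀e⟩ := int_factor' (E := E) hm hS'm ⟨R', by rw [hfac, mul_comm]⟩
  have hRS0 : C (↑u⁻¹ : O) * (q - C x) = R₀ * S₀ := by
    apply Polynomial.map_injective _ hinj
    rw [hfac, Polynomial.map_mul, hR₀e, hS₀e]
  have h3 := congrArg (fun p : O[X] => p.map (IsLocalRing.residue O)) hRS0
  simp only [Polynomial.map_sub, Polynomial.map_mul, map_C] at h3
  have hu1 : IsLocalRing.residue O (↑u⁻¹ : O) ≠ 0 := by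
    rw [IsLocalRing.residue_ne_zero_iff_isUnit]
    exact Units.isUnit _
  have hRd' : R₀.map (IsLocalRing.residue O) ∣
      q.map (IsLocalRing.residue O) - C (IsLocalRing.residue O x) := by
    have h4 : R₀.map (IsLocalRing.residue O) ∣ C (IsLocalRing.residue O (↑u⁻¹ : O)) *
        (q.map (IsLocalRing.residue O) - C (IsLocalRing.residue O x)) := by
      rw [h3]
      exact dvd_mul_right _ _
    exact ((isUnit_C.2 (isUnit_iff_ne_zero.2 hu1)).dvd_mul_left).1 h4
  have hdegq : (q.map (IsLocalRing.residue O)).natDegree = h.natDegree := by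
    rw [← hqd']
    refine natDegree_map_of_leadingCoeff_ne_zero _ ?_
    rw [← hu, IsLocalRing.residue_ne_zero_iff_isUnit]
    exact Units.isUnit u
  have hnR : R'.natDegree = n := by rw [hR', hR.natDegree_map, hRd]
  refine hdeg _ hRd' ?_
  rw [hR₀.natDegree_map, hR₀d, hnR, hdegq, hn2]

/-- The root carries over. -/
theorem HasRootIn.comp {f h : k[X]} (hr : HasRootIn (O := O) φ Z f)
    (hh : UnbalancedAt (O := O) φ Z h) (hd : 0 < h.natDegree) : HasRootIn (O := O) φ Z (f.comp h) := by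
  obtain ⟨q, hq, hqu, hqZ⟩ := hh
  obtain ⟨x, hx, hxZ⟩ := hr
  obtain ⟨⟨y, hyZ, hy, hy'⟩, -⟩ := hqZ _ hxZ
  have hinj : Function.Injective (algebraMap O E) := IsFractionRing.injective O E
  have hqd' : q.natDegree = h.natDegree := by
    have h1 := congrArg natDegree hq
    rwa [natDegree_map_eq_of_injective hinj, natDegree_map] at h1
  obtain ⟨x1, hx1, hx1y, hx1r⟩ := HasRootIn.lift hq hqu (by rw [hqd']; exact hd) hx hy hy'
  exact ⟨x1, hx1r, by rw [hx1y]; exact hyZ⟩

end root

end Pool.Agent.T6.H14.TW
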